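import Pool.Agent.H69.LQ.Lib
import Pool.Agent.H69.LNN.Targets

/-!
# MP_8f7db2_an, row CAP: a point has capacity zero in dimension at least 3
-/

set_option autoImplicit false

open MeasureTheory Metric Set
open scoped ENNReal ContDiff
open Pool.Agent.H85.LK (E adm lam Ann)
open Pool.Agent.H69.LQ Pool.Agent.H69.LNN

namespace Pool.Agent.H26.LNN

/-- a fixed cutoff -/
theorem exists_cut (N : ℕ) : ∃ (χ : E N → ℝ) (C : ℝ), 0 ≤ C ∧ ContDiff ℝ (⊤ : ℕ∞) χ ∧
    (∀ x, 0 ≤ χ x ∧ χ x ≤ 1) ∧ (∀ x, ‖x‖ ≤ 1 → χ x = 0) ∧ (∀ x, 2 ≤ ‖x‖ → χ x = 1) ∧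
    (∀ x, ‖fderiv ℝ χ x‖ ≤ C) ∧ ∀ x, 2 < ‖x‖ → fderiv ℝ χ x = 0 := by
  let f : ContDiffBump (0 : E N) := ⟨1, 2, one_pos, one_lt_two⟩
  have hf : ContDiff ℝ (⊤ : ℕ∞) (f : E N → ℝ) := f.contDiff
  have hcs : HasCompactSupport (f : E N → ℝ) := f.hasCompactSupport
  have hc : Continuous (fderiv ℝ (f : E N → ℝ)) := hf.continuous_fderiv (by simp)
  obtain ⟨C, hC⟩ := hc.bounded_above_of_compact_support (hcs.fderiv ℝ)
  have hfd : ∀ x, fderiv ℝ (fun x => 1 - f x) x = - fderiv ℝ (f : E N → ℝ) x := fun x => by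
    rw [fderiv_const_sub]
  refine ⟨fun x => 1 - f x, C, (norm_nonneg _).trans (hC 0), contDiff_const.sub hf,
    fun x => ⟨by linarith [f.le_one (x := x)], by linarith [f.nonneg (x := x)]⟩, fun x hx => ?_,
    fun x hx => ?_, fun x => ?_, fun x hx => ?_⟩
  · have h1 : f x = 1 := f.one_of_mem_closedBall (by simpa [dist_eq_norm] using hx)
    change 1 - f x = 0
    rw [h1, sub_self]
  · have h1 : f x = 0 := f.zero_of_le_dist (by simpa [dist_eq_norm] using hx)
    change 1 - f x = 1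
    rw [h1, sub_zero]
  · rw [hfd, norm_neg]
    exact hC x
  · rw [hfd]
    have h1 : (f : E N → ℝ) =ᶠ[nhds x] fun _ => 0 := by
      have h2 : ∀ᶠ y in nhds x, 2 < ‖y‖ := (continuous_norm.tendsto x).eventually (lt_mem_nhds hx)
      filter_upwards [h2] with y hy
      exact f.zero_of_le_dist (by simpa [dist_eq_norm] using hy.le)
    rw [h1.fderiv_eq]
    simp

/-- the sup norm is bounded by the norm of `L²` on a finite-dimensional space of functions -/
theorem sup_bound {N : ℕ} (V : Submodule ℝ (E N → ℝ)) [Module.Finite ℝ V]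
    (hV : ∀ v ∈ V, Continuous v ∧ HasCompactSupport v) :
    ∃ M : ℝ, 0 ≤ M ∧ ∀ v ∈ V, ∀ x, v x ^ 2 ≤ M * ∫ y, v y ^ 2 := by
  have hm : ∀ v ∈ V, MemLp v 2 volume := fun v hv =>
    (hV v hv).1.memLp_of_hasCompactSupport (hV v hv).2
  have hbd : ∀ v ∈ V, ∃ C, ∀ x, ‖v x‖ ≤ C := fun v hv =>
    (hV v hv).1.bounded_above_of_compact_support (hV v hv).2
  choose! B hB using hbd
  let Ψ : V →ₗ[ℝ] Lp ℝ 2 (volume : Measure (E N)) :=
    { toFun := fun v => (hm v v.2).toLp v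
      map_add' := fun v w => MemLp.toLp_add (hm v v.2) (hm w w.2)
      map_smul' := fun c v => MemLp.toLp_const_smul c (hm v v.2) }
  let Φ : V →ₗ[ℝ] BoundedContinuousFunction (E N) ℝ :=
    { toFun := fun v => BoundedContinuousFunction.ofNormedAddCommGroup v (hV v v.2).1 (B v)
        (hB v v.2)
      map_add' := fun v w => by ext x; rfl
      map_smul' := fun c v => by ext x; rfl }
  have hinj : Function.Injective Ψ := by
    intro v w h
    have h1 : (v : E N → ℝ) =ᵐ[volume] (w : E N → ℝ) :=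
      (MemLp.toLp_eq_toLp_iff (hm v v.2) (hm w w.2)).1 h
    exact Subtype.ext (((hV v v.2).1.ae_eq_iff_eq volume (hV w w.2).1).1 h1)
  let e := LinearEquiv.ofInjective Ψ hinj
  let T := LinearMap.toContinuousLinearMap (Φ.comp (e.symm : LinearMap.range Ψ →ₗ[ℝ] V))
  refine ⟨‖T‖ ^ 2, sq_nonneg _, fun v hv x => ?_⟩
  have h1 : ‖Φ ⟨v, hv⟩‖ ≤ ‖T‖ * ‖Ψ ⟨v, hv⟩‖ := by
    have h2 := T.le_opNorm (e ⟨v, hv⟩)
    have h3 : T (e ⟨v, hv⟩) = Φ ⟨v, hv⟩ := by
      change Φ (e.symm (e ⟨v, hv⟩)) = _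
      rw [LinearEquiv.symm_apply_apply]
    rw [h3] at h2
    exact h2
  have h2 : ‖v x‖ ≤ ‖Φ ⟨v, hv⟩‖ := (Φ ⟨v, hv⟩).norm_coe_le_norm x
  have h3 : ‖Ψ ⟨v, hv⟩‖ ^ 2 = ∫ y, v y ^ 2 := by
    rw [← real_inner_self_eq_norm_sq, L2.inner_def]
    refine integral_congr_ae ?_
    filter_upwards [MemLp.coeFn_toLp (hm v hv)] with y hy
    have hy' : (Ψ ⟨v, hv⟩ : E N → ℝ) y = v y := hy
    rw [hy']
    simp [sq]
  rw [← h3]
  calc v x ^ 2 = ‖v x‖ ^ 2 := by rw [Real.norm_eq_abs, sq_abs]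
    _ ≤ (‖T‖ * ‖Ψ ⟨v, hv⟩‖) ^ 2 := by
        refine pow_le_pow_left₀ (norm_nonneg _) (h2.trans h1) 2
    _ = _ := by ring

/-- multiplication by a function -/
def mulL {N : ℕ} (η : E N → ℝ) : (E N → ℝ) →ₗ[ℝ] (E N → ℝ) where
  toFun v := fun x => η x * v x
  map_add' v w := by
    funext x
    simp only [Pi.add_apply]
    ring
  map_smul' c v := by
    funext x
    simp only [Pi.smul_apply, smul_eq_mul, RingHom.id_apply]
    ring

theorem sq_aux (a b t : ℝ) (ht : 0 < t) : (a + b) ^ 2 ≤ (1 + t) * a ^ 2 + (1 + 1 / t) * b ^ 2 := by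
  have h1 : 2 * (a * b) ≤ t * a ^ 2 + 1 / t * b ^ 2 := by
    have h2 : 0 ≤ (t * a - b) ^ 2 / t := by positivity
    have h3 : (t * a - b) ^ 2 / t = t * a ^ 2 - 2 * (a * b) + 1 / t * b ^ 2 := by
      field_simp
      ring
    linarith
  nlinarith

/-- one function -/
theorem one_fun {N : ℕ} (v η : E N → ℝ) (M b g t D : ℝ) (A : Set (E N)) (hA : MeasurableSet A)
    (hAf : volume A ≠ ⊤)
    (hv : ContDiff ℝ (⊤ : ℕ∞) v) (hvc : HasCompactSupport v) (hη : ContDiff ℝ (⊤ : ℕ∞) η)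
    (hη01 : ∀ x, 0 ≤ η x ∧ η x ≤ 1) (hηA : ∀ x, x ∉ A → η x = 1)
    (hηd : ∀ x, ‖fderiv ℝ η x‖ ≤ g) (hηdA : ∀ x, x ∉ A → fderiv ℝ η x = 0) (ht : 0 < t)
    (hM : ∀ x, v x ^ 2 ≤ M * ∫ y, v y ^ 2)
    (hb : volume.real A ≤ b) (hD : ∫ x, ‖fderiv ℝ v x‖ ^ 2 ≤ D * ∫ x, v x ^ 2) (hM0 : 0 ≤ M) :
    (∫ x, ‖fderiv ℝ (fun x => η x * v x) x‖ ^ 2 ≤
      ((1 + t) * D + (1 + 1 / t) * M * (g ^ 2 * b)) * ∫ x, v x ^ 2) ∧
    (1 - M * b) * ∫ x, v x ^ 2 ≤ ∫ x, (η x * v x) ^ 2 := by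
  have hI0 : 0 ≤ ∫ y, v y ^ 2 := integral_nonneg fun y => sq_nonneg _
  set I : ℝ := ∫ y, v y ^ 2 with hI
  have hg0 : 0 ≤ g := (norm_nonneg _).trans (hηd 0)
  have hvd : Integrable (fun x => ‖fderiv ℝ v x‖ ^ 2) := by
    refine Continuous.integrable_of_hasCompactSupport ?_ ?_
    · exact (hv.continuous_fderiv (by simp)).norm.pow 2
    · exact (hvc.fderiv ℝ).comp_left (g := fun z : E N →L[ℝ] ℝ => ‖z‖ ^ 2) (by simp)
  have hv2 : Integrable (fun x => v x ^ 2) := by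
    refine Continuous.integrable_of_hasCompactSupport (hv.continuous.pow 2) ?_
    exact hvc.comp_left (g := fun z : ℝ => z ^ 2) (by simp)
  have hind : Integrable (A.indicator fun _ : E N => (1 : ℝ)) :=
    (integrable_indicator_iff hA).2 (integrableOn_const hAf)
  have hindI : ∫ x, A.indicator (fun _ : E N => (1 : ℝ)) x = volume.real A := by
    rw [integral_indicator hA]
    simp
  constructor
  · have hpt : ∀ x, ‖fderiv ℝ (fun x => η x * v x) x‖ ^ 2 ≤
        (1 + t) * ‖fderiv ℝ v x‖ ^ 2 +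
          (1 + 1 / t) * (M * I * g ^ 2) * A.indicator (fun _ : E N => (1 : ℝ)) x := by
      intro x
      have hηx : DifferentiableAt ℝ η x := (hη.differentiable (by simp)) x
      have hvx : DifferentiableAt ℝ v x := (hv.differentiable (by simp)) x
      have e1 : fderiv ℝ (fun x => η x * v x) x = η x • fderiv ℝ v x + v x • fderiv ℝ η x :=
        fderiv_fun_mul hηx hvx
      have h1 : ‖fderiv ℝ (fun x => η x * v x) x‖ ≤
          ‖fderiv ℝ v x‖ + |v x| * ‖fderiv ℝ η x‖ := by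
        rw [e1]
        refine (norm_add_le _ _).trans ?_
        rw [norm_smul, norm_smul, Real.norm_eq_abs, Real.norm_eq_abs, abs_of_nonneg (hη01 x).1]
        have := mul_le_of_le_one_left (norm_nonneg (fderiv ℝ v x)) (hη01 x).2
        linarith
      have h2 : ‖fderiv ℝ (fun x => η x * v x) x‖ ^ 2 ≤
          (1 + t) * ‖fderiv ℝ v x‖ ^ 2 + (1 + 1 / t) * (|v x| * ‖fderiv ℝ η x‖) ^ 2 :=
        (pow_le_pow_left₀ (norm_nonneg _) h1 2).trans (sq_aux _ _ t ht)
      have h3 : (|v x| * ‖fderiv ℝ η x‖) ^ 2 ≤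
          (M * I * g ^ 2) * A.indicator (fun _ : E N => (1 : ℝ)) x := by
        by_cases hx : x ∈ A
        · rw [indicator_of_mem hx, mul_one, mul_pow, sq_abs]
          exact mul_le_mul (hM x) (pow_le_pow_left₀ (norm_nonneg _) (hηd x) 2) (sq_nonneg _)
            (mul_nonneg hM0 hI0)
        · rw [indicator_of_notMem hx, hηdA x hx]
          simp
      have h4 : 0 ≤ 1 + 1 / t := by positivity
      have h5 := mul_le_mul_of_nonneg_left h3 h4
      calc _ ≤ _ := h2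
        _ ≤ (1 + t) * ‖fderiv ℝ v x‖ ^ 2 +
          (1 + 1 / t) * ((M * I * g ^ 2) * A.indicator (fun _ : E N => (1 : ℝ)) x) := by linarith
        _ = _ := by ring
    calc ∫ x, ‖fderiv ℝ (fun x => η x * v x) x‖ ^ 2
        ≤ ∫ x, ((1 + t) * ‖fderiv ℝ v x‖ ^ 2 +
          (1 + 1 / t) * (M * I * g ^ 2) * A.indicator (fun _ : E N => (1 : ℝ)) x) := by
          refine integral_mono_of_nonneg (Filter.Eventually.of_forall fun x => sq_nonneg _) ?_
            (Filter.Eventually.of_forall hpt)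
          exact (hvd.const_mul _).add (hind.const_mul _)
      _ = (1 + t) * (∫ x, ‖fderiv ℝ v x‖ ^ 2) + (1 + 1 / t) * (M * I * g ^ 2) * volume.real A := by
          rw [integral_add (hvd.const_mul _) (hind.const_mul _), integral_const_mul,
            integral_const_mul, hindI]
      _ ≤ (1 + t) * (D * I) + (1 + 1 / t) * (M * I * g ^ 2) * b := by
          gcongr
      _ = _ := by ring
  · have hpt : ∀ x, v x ^ 2 - M * I * A.indicator (fun _ : E N => (1 : ℝ)) x ≤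
        (η x * v x) ^ 2 := by
      intro x
      by_cases hx : x ∈ A
      · rw [indicator_of_mem hx, mul_one]
        have := hM x
        nlinarith [sq_nonneg (η x * v x)]
      · rw [indicator_of_notMem hx, hηA x hx]
        simp
    have hηv : Integrable (fun x => (η x * v x) ^ 2) := by
      refine Continuous.integrable_of_hasCompactSupport
        ((hη.continuous.mul hv.continuous).pow 2) ?_
      exact (hvc.mul_left (f := η)).comp_left (g := fun z : ℝ => z ^ 2) (by simp)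
    calc (1 - M * b) * I ≤ I - M * I * volume.real A := by
          have := mul_le_mul_of_nonneg_left hb (mul_nonneg hM0 hI0)
          nlinarith
      _ = ∫ x, (v x ^ 2 - M * I * A.indicator (fun _ : E N => (1 : ℝ)) x) := by
          rw [integral_sub hv2 (hind.const_mul _), integral_const_mul, hindI]
      _ ≤ ∫ x, (η x * v x) ^ 2 := integral_mono (hv2.sub (hind.const_mul _)) hηv hpt

theorem choose_par (γ ε M K : ℝ) (hε : 0 < ε) (hM : 0 ≤ M) (hK : 0 ≤ K) :
    ∃ t d : ℝ, 0 < t ∧ 0 < d ∧ d ≤ 1 ∧ M * (K * d) ≤ 1 / 2 ∧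
      (1 + t) * γ + (1 + 1 / t) * M * (K * d) ≤ (γ + ε) * (1 - M * (K * d)) := by
  obtain ⟨t, ht⟩ : ∃ t, t = ε / (4 * (|γ| + 1)) := ⟨_, rfl⟩
  have ht0 : 0 < t := by rw [ht]; positivity
  have htγ : t * γ ≤ ε / 4 := by
    calc t * γ ≤ t * (|γ| + 1) := by
          refine mul_le_mul_of_nonneg_left ?_ ht0.le
          linarith [le_abs_self γ]
      _ = ε / 4 := by
          rw [ht]
          field_simp
  obtain ⟨Z, hZ⟩ : ∃ Z, Z = M * K * (1 + 1 / t + |γ + ε| + 1) := ⟨_, rfl⟩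
  have hZ0 : 0 ≤ Z := by rw [hZ]; positivity
  obtain ⟨d, hd⟩ : ∃ d, d = min 1 (min (1 / 2) (ε / 4) / (Z + 1)) := ⟨_, rfl⟩
  have hd0 : 0 < d := by
    rw [hd]
    have : 0 < min (1 / 2) (ε / 4) := lt_min (by norm_num) (by positivity)
    positivity
  have hd1 : d ≤ 1 := by rw [hd]; exact min_le_left _ _
  have hZd : Z * d ≤ min (1 / 2) (ε / 4) := by
    have h1 : d ≤ min (1 / 2) (ε / 4) / (Z + 1) := by rw [hd]; exact min_le_right _ _
    have h2 : d * (Z + 1) ≤ min (1 / 2) (ε / 4) := (le_div_iff₀ (by positivity)).1 h1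
    nlinarith
  have hZ1 : Z * d ≤ 1 / 2 := hZd.trans (min_le_left _ _)
  have hZ2 : Z * d ≤ ε / 4 := hZd.trans (min_le_right _ _)
  have hMKd : 0 ≤ M * K * d := by positivity
  have ht1 : 0 ≤ 1 / t := by positivity
  have e1 : Z * d = (M * K * d) * (1 + 1 / t) + (M * K * d) * |γ + ε| + M * K * d := by
    rw [hZ]
    ring
  have h1 : 0 ≤ (M * K * d) * (1 + 1 / t) := by positivity
  have h2 : 0 ≤ (M * K * d) * |γ + ε| := by positivity
  have h3 : (M * K * d) * (γ + ε) ≤ (M * K * d) * |γ + ε| :=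
    mul_le_mul_of_nonneg_left (le_abs_self _) hMKd
  refine ⟨t, d, ht0, hd0, hd1, ?_, ?_⟩
  · nlinarith
  · have e2 : (1 + 1 / t) * M * (K * d) = (M * K * d) * (1 + 1 / t) := by ring
    have e3 : (γ + ε) * (1 - M * (K * d)) = γ + ε - (M * K * d) * (γ + ε) := by ring
    rw [e2, e3]
    nlinarith

theorem pf_CAP (_hTR : T_TR) : T_CAP := by
  intro N n Ω o γ ε hN hn hΩ hγ hε
  obtain ⟨V, hV, hv⟩ := hγ
  have hfin : Module.Finite ℝ V := Module.finite_of_finrank_pos (by omega)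
  obtain ⟨M, hM0, hM⟩ := sup_bound V fun v hvV => ⟨(hv v hvV).1.continuous, (hv v hvV).2.1⟩
  obtain ⟨χ, C, hC0, hχ, hχ01, hχ0, hχ1, hχd, hχd0⟩ := exists_cut N
  obtain ⟨a, ha⟩ : ∃ a, a = volume.real (ball (0 : E N) 1) := ⟨_, rfl⟩
  have ha0 : 0 ≤ a := by rw [ha]; exact measureReal_nonneg
  obtain ⟨t, d, ht, hd, hd1, hp1, hp2⟩ := choose_par γ ε M (2 ^ N * a * (C ^ 2 + 1)) hε hM0
    (by positivity)
  -- the cutoff
  let η : E N → ℝ := fun x => χ (d⁻¹ • (x - o))
  have hη : ContDiff ℝ (⊤ : ℕ∞) η :=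
    hχ.comp ((contDiff_id.sub contDiff_const).const_smul _)
  have hηd : ∀ x, fderiv ℝ η x = d⁻¹ • fderiv ℝ χ (d⁻¹ • (x - o)) := by
    intro x
    have h1 : fderiv ℝ (fun x => (fun y => χ (d⁻¹ • y)) (x - o)) x =
        fderiv ℝ (fun y => χ (d⁻¹ • y)) (x - o) :=
      fderiv_comp_sub (f := fun y => χ (d⁻¹ • y)) o
    have h2 : fderiv ℝ (fun y => χ (d⁻¹ • y)) (x - o) = d⁻¹ • fderiv ℝ χ (d⁻¹ • (x - o)) :=
      fderiv_comp_smul d⁻¹
    rw [← h2]
    exact h1
  have hnorm : ∀ x, ‖d⁻¹ • (x - o)‖ = ‖x - o‖ / d := fun x => by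
    rw [norm_smul, norm_inv, Real.norm_eq_abs, abs_of_pos hd, inv_mul_eq_div]
  have hout : ∀ x, x ∉ closedBall o (2 * d) → 2 < ‖d⁻¹ • (x - o)‖ := by
    intro x hx
    rw [hnorm, lt_div_iff₀ hd]
    rw [mem_closedBall, dist_eq_norm, not_le] at hx
    exact hx
  have hvol : volume.real (closedBall o (2 * d)) = 2 ^ N * d ^ N * a := by
    rw [Measure.addHaar_real_closedBall _ _ (by positivity), ha]
    simp [mul_pow]
  have hdN : d ^ N ≤ d * d ^ 2 := by
    calc d ^ N ≤ d ^ 3 := pow_le_pow_of_le_one hd.le hd1 hN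
      _ = d * d ^ 2 := by ring
  -- the estimates for one function
  have hone : ∀ v ∈ V, (∫ x, ‖fderiv ℝ (fun x => η x * v x) x‖ ^ 2 ≤
      (γ + ε) * ∫ x, (η x * v x) ^ 2) ∧
      1 / 2 * ∫ x, v x ^ 2 ≤ ∫ x, (η x * v x) ^ 2 := by
    intro v hvV
    obtain ⟨h1, h2, h3, h4⟩ := hv v hvV
    have hI0 : 0 ≤ ∫ y, v y ^ 2 := integral_nonneg fun y => sq_nonneg _
    obtain ⟨k1, k2⟩ := one_fun v η M (2 ^ N * d ^ N * a) (C / d) t γ (closedBall o (2 * d))
      measurableSet_closedBall measure_closedBall_lt_top.ne h1 h2 hη (fun x => hχ01 _)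
      (fun x hx => hχ1 _ (hout x hx).le)
      (fun x => by
        rw [hηd, norm_smul, norm_inv, Real.norm_eq_abs, abs_of_pos hd, inv_mul_eq_div]
        exact div_le_div_of_nonneg_right (hχd _) hd.le)
      (fun x hx => by rw [hηd, hχd0 _ (hout x hx), smul_zero]) ht (hM v hvV) hvol.le h4 hM0
    have hb1 : (C / d) ^ 2 * (2 ^ N * d ^ N * a) ≤ 2 ^ N * a * (C ^ 2 + 1) * d := by
      have e1 : (C / d) ^ 2 * (2 ^ N * d ^ N * a) = 2 ^ N * a * C ^ 2 * (d ^ N / d ^ 2) := by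
        field_simp
      rw [e1]
      have h5 : d ^ N / d ^ 2 ≤ d := by
        rw [div_le_iff₀ (by positivity)]
        exact hdN
      have h6 : 2 ^ N * a * C ^ 2 * (d ^ N / d ^ 2) ≤ 2 ^ N * a * (C ^ 2 + 1) * d := by
        gcongr
        linarith
      exact h6
    have hb2 : 2 ^ N * d ^ N * a ≤ 2 ^ N * a * (C ^ 2 + 1) * d := by
      have h5 : d ^ N ≤ d := by
        calc d ^ N ≤ d ^ 1 := pow_le_pow_of_le_one hd.le hd1 (by omega)
          _ = d := pow_one d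
      calc 2 ^ N * d ^ N * a ≤ 2 ^ N * d * a := by gcongr
        _ = 2 ^ N * a * d * 1 := by ring
        _ ≤ 2 ^ N * a * d * (C ^ 2 + 1) := by
            gcongr
            nlinarith [sq_nonneg C]
        _ = _ := by ring
    have hw : (1 - M * (2 ^ N * a * (C ^ 2 + 1) * d)) * ∫ x, v x ^ 2 ≤ ∫ x, (η x * v x) ^ 2 := by
      refine le_trans (mul_le_mul_of_nonneg_right ?_ hI0) k2
      have := mul_le_mul_of_nonneg_left hb2 hM0
      linarith
    constructor
    · have h6 : (1 + t) * γ + (1 + 1 / t) * M * ((C / d) ^ 2 * (2 ^ N * d ^ N * a)) ≤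
          (γ + ε) * (1 - M * (2 ^ N * a * (C ^ 2 + 1) * d)) := by
        refine le_trans ?_ hp2
        have h7 : 0 ≤ (1 + 1 / t) * M := by positivity
        have := mul_le_mul_of_nonneg_left hb1 h7
        linarith
      have h7 := k1.trans (mul_le_mul_of_nonneg_right h6 hI0)
      by_cases hge : 0 ≤ γ + ε
      · refine h7.trans ?_
        rw [mul_assoc]
        exact mul_le_mul_of_nonneg_left hw hge
      · -- then the energy is negative unless `v = 0`
        push Not at hge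
        have h8 : 0 < 1 - M * (2 ^ N * a * (C ^ 2 + 1) * d) := by linarith
        have h9 : (γ + ε) * (1 - M * (2 ^ N * a * (C ^ 2 + 1) * d)) < 0 :=
          mul_neg_of_neg_of_pos hge h8
        have h10 : 0 ≤ ∫ x, ‖fderiv ℝ (fun x => η x * v x) x‖ ^ 2 :=
          integral_nonneg fun y => sq_nonneg _
        have h11 : ∫ y, v y ^ 2 = 0 := by nlinarith
        have h12 : v = 0 := by
          funext x
          have := hM v hvV x
          rw [h11, mul_zero] at this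
          exact pow_eq_zero_iff two_ne_zero |>.1 (le_antisymm this (sq_nonneg _))
        rw [h12]
        simp
    · refine le_trans (mul_le_mul_of_nonneg_right ?_ hI0) hw
      linarith
  -- injectivity
  have hinj : Function.Injective ((mulL η).comp V.subtype) := by
    refine (injective_iff_map_eq_zero _).2 fun v h0 => ?_
    have h1 := (hone v v.2).2
    have h2 : ∀ x, η x * (v : E N → ℝ) x = 0 := fun x => congrFun h0 x
    have h3 : ∫ x, (η x * (v : E N → ℝ) x) ^ 2 = 0 := by simp [h2]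
    rw [h3] at h1
    have h4 : 0 ≤ ∫ y, (v : E N → ℝ) y ^ 2 := integral_nonneg fun y => sq_nonneg _
    have h5 : ∫ y, (v : E N → ℝ) y ^ 2 = 0 := by linarith
    refine Subtype.ext (funext fun x => ?_)
    have := hM v v.2 x
    rw [h5, mul_zero] at this
    exact pow_eq_zero_iff two_ne_zero |>.1 (le_antisymm this (sq_nonneg _))
  refine ⟨V.map (mulL η), ?_, ?_⟩
  · have h1 := LinearMap.finrank_range_of_inj hinj
    rw [LinearMap.range_comp, Submodule.range_subtype] at h1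
    rw [h1, hV]
  · intro w hw
    obtain ⟨v, hvV, rfl⟩ := Submodule.mem_map.1 hw
    obtain ⟨h1, h2, h3, h4⟩ := hv v hvV
    have e1 : (mulL η) v = fun x => η x * v x := rfl
    rw [e1]
    refine ⟨hη.mul h1, h2.mul_left, ?_, (hone v hvV).1⟩
    intro x hx
    refine ⟨h3 (tsupport_mul_subset_right hx), ?_⟩
    rintro rfl
    have h5 : (fun y => η y * v y) =ᶠ[nhds x] 0 := by
      filter_upwards [ball_mem_nhds x hd] with y hy
      have h6 : χ (d⁻¹ • (y - x)) = 0 := by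
        refine hχ0 _ ?_
        rw [hnorm, div_le_one hd]
        rw [mem_ball, dist_eq_norm] at hy
        exact hy.le
      change χ (d⁻¹ • (y - x)) * v y = 0
      rw [h6, zero_mul]
    exact (notMem_tsupport_iff_eventuallyEq.2 h5) hx

end Pool.Agent.H26.LNN
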