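import Pool.Agent.H69.LQ.Lib
import Pool.Agent.H69.LNN.Targets

/-!
# MP_8f7db2_an, row VM: means of the volumes of the rays
-/

set_option autoImplicit false

open MeasureTheory Metric Set
open scoped ENNReal
open Pool.Agent.H85.LK (E adm lam Ann)
open Pool.Agent.H69.LQ Pool.Agent.H69.LNN

namespace Pool.Agent.H26.LNN

/-- the volume of the part of a set on a ray -/
noncomputable def wA {N : ℕ} (b : ℝ) (A : Set (E N)) (θ : Sp N) : ℝ :=
  ∫ r in Ioo (0 : ℝ) b ∩ {r | r • (θ : E N) ∈ A}, (N : ℝ) * r ^ (N - 1)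

theorem meas_ray {N : ℕ} {A : Set (E N)} (hA : MeasurableSet A) (θ : Sp N) :
    MeasurableSet {r : ℝ | r • (θ : E N) ∈ A} :=
  hA.preimage (measurable_id.smul_const (θ : E N))

theorem wA_vol (hMP : T_MP) {N : ℕ} (hN : 2 ≤ N) (b : ℝ) (A : Set (E N)) (hA : MeasurableSet A)
    (hb : A ⊆ ball 0 b) : Integrable (wA b A) (mS N) ∧ vB N * av (wA b A) = volume.real A := by
  obtain ⟨-, -, har, hg⟩ := hMP N hN
  have hfin : volume A ≠ ⊤ := ((measure_mono hb).trans_lt measure_ball_lt_top).ne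
  have hint : Integrable (A.indicator fun _ : E N => (1 : ℝ)) :=
    (integrable_indicator_iff hA).2 (integrableOn_const hfin)
  obtain ⟨-, h2, h3⟩ := hg _ hint
  have key : ∀ θ : Sp N, wA b A θ = N * ∫ r in Ioi (0 : ℝ), r ^ (N - 1) *
      A.indicator (fun _ : E N => (1 : ℝ)) (r • (θ : E N)) := by
    intro θ
    have e1 : ∀ r : ℝ, r ^ (N - 1) * A.indicator (fun _ : E N => (1 : ℝ)) (r • (θ : E N)) =
        ({r : ℝ | r • (θ : E N) ∈ A}).indicator (fun r => r ^ (N - 1)) r := by
      intro r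
      by_cases hr : r • (θ : E N) ∈ A
      · rw [indicator_of_mem hr, indicator_of_mem (show r ∈ {r : ℝ | r • (θ : E N) ∈ A} from hr),
          mul_one]
      · rw [indicator_of_notMem hr,
          indicator_of_notMem (show r ∉ {r : ℝ | r • (θ : E N) ∈ A} from hr), mul_zero]
    simp only [e1]
    rw [setIntegral_indicator (meas_ray hA θ), wA, integral_const_mul]
    have e2 : Ioo (0 : ℝ) b ∩ {r | r • (θ : E N) ∈ A} = Ioi 0 ∩ {r | r • (θ : E N) ∈ A} := by
      ext r
      constructor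
      · rintro ⟨h, h'⟩
        exact ⟨h.1, h'⟩
      · rintro ⟨h, h'⟩
        refine ⟨⟨h, ?_⟩, h'⟩
        have h4 := hb h'
        rw [mem_ball_zero_iff, norm_smul_sp] at h4
        exact (le_abs_self r).trans_lt h4
    rw [e2]
  have hfun : wA b A = fun θ : Sp N => (N : ℝ) * ∫ r in Ioi (0 : ℝ), r ^ (N - 1) *
      A.indicator (fun _ : E N => (1 : ℝ)) (r • (θ : E N)) := funext key
  refine ⟨by rw [hfun]; exact h2.const_mul _, ?_⟩
  rw [hfun, av_const_mul]
  have h4 : ∫ x, A.indicator (fun _ : E N => (1 : ℝ)) x = volume.real A := by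
    rw [integral_indicator hA]
    simp
  rw [← h4, h3, har, vB]
  ring

theorem rint (N : ℕ) (b : ℝ) : IntegrableOn (fun r : ℝ => (N : ℝ) * r ^ (N - 1)) (Ioo 0 b) :=
  ((continuous_const.mul (continuous_id.pow _)).integrableOn_Icc).mono_set Ioo_subset_Icc_self

theorem set_le (N : ℕ) (b : ℝ) (T T' T'' : Set ℝ) (hT' : MeasurableSet T')
    (hT'' : MeasurableSet T'') (hT : MeasurableSet T) (h : T ⊆ T' ∪ T'') :
    ∫ r in Ioo 0 b ∩ T, (N : ℝ) * r ^ (N - 1) ≤ (∫ r in Ioo 0 b ∩ T', (N : ℝ) * r ^ (N - 1)) +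
      ∫ r in Ioo 0 b ∩ T'', (N : ℝ) * r ^ (N - 1) := by
  have h0 : ∀ r ∈ Ioo (0 : ℝ) b, 0 ≤ (N : ℝ) * r ^ (N - 1) := fun r hr =>
    mul_nonneg (Nat.cast_nonneg N) (pow_nonneg hr.1.le _)
  rw [← setIntegral_indicator hT, ← setIntegral_indicator hT', ← setIntegral_indicator hT'',
    ← integral_add ((rint N b).indicator hT') ((rint N b).indicator hT'')]
  refine setIntegral_mono_on ((rint N b).indicator hT)
    (((rint N b).indicator hT').add ((rint N b).indicator hT'')) measurableSet_Ioo fun r hr => ?_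
  have h1 := h0 r hr
  have h2 : 0 ≤ T'.indicator (fun r : ℝ => (N : ℝ) * r ^ (N - 1)) r := by
    by_cases hr' : r ∈ T'
    · rw [indicator_of_mem hr']; exact h1
    · rw [indicator_of_notMem hr']
  have h3 : 0 ≤ T''.indicator (fun r : ℝ => (N : ℝ) * r ^ (N - 1)) r := by
    by_cases hr' : r ∈ T''
    · rw [indicator_of_mem hr']; exact h1
    · rw [indicator_of_notMem hr']
  by_cases hr' : r ∈ T
  · rw [indicator_of_mem hr']
    rcases h hr' with h4 | h4
    · rw [indicator_of_mem h4]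
      linarith
    · rw [indicator_of_mem h4]
      linarith
  · rw [indicator_of_notMem hr']
    linarith

theorem one_le_bb (N : ℕ) : 1 ≤ bb N := by
  unfold bb
  have : 0 ≤ 20 / Real.sqrt N := by positivity
  linarith

theorem w_ball {N : ℕ} (hN : 2 ≤ N) (θ : Sp N) : wA (bb N) (ball (0 : E N) 1) θ = 1 := by
  unfold wA
  have e : Ioo (0 : ℝ) (bb N) ∩ {r | r • (θ : E N) ∈ ball (0 : E N) 1} = Ioo 0 1 := by
    ext r
    simp only [mem_inter_iff, mem_Ioo, mem_setOf_eq, mem_ball_zero_iff, norm_smul_sp]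
    have := one_le_bb N
    constructor
    · rintro ⟨⟨h1, -⟩, h2⟩
      exact ⟨h1, (le_abs_self r).trans_lt h2⟩
    · rintro ⟨h1, h2⟩
      exact ⟨⟨h1, by linarith⟩, by rwa [abs_of_pos h1]⟩
  rw [e, ← integral_Ioc_eq_integral_Ioo, ← intervalIntegral.integral_of_le zero_le_one,
    intervalIntegral.integral_const_mul, integral_pow]
  have h1 : (N - 1 : ℕ) + 1 = N := by omega
  have h2 : ((N - 1 : ℕ) : ℝ) + 1 = N := by exact_mod_cast h1
  have h3 : (N : ℝ) ≠ 0 := by
    have : N ≠ 0 := by omega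
    exact_mod_cast this
  rw [h1, h2, one_pow, zero_pow (by omega)]
  field_simp
  ring

theorem pf_VM (hMP : T_MP) (_hVR : T_VR) (_hVE : T_VE) : T_VM := by
  intro N Ω a hN hΩ hfin ha ha1
  have hN2 : 2 ≤ N := by omega
  have hbb := one_le_bb N
  have hΩm := hΩ.measurableSet
  have m1 : MeasurableSet (Ω ∩ ball 0 (bb N)) := hΩm.inter measurableSet_ball
  have hvB : 0 ≤ vB N := measureReal_nonneg
  -- the volume
  have hrho : rho Ω = wA (bb N) (Ω ∩ ball 0 (bb N)) := by
    funext θ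
    unfold rho vr wA
    congr 2
    ext r
    simp only [mem_inter_iff, mem_Ioo, mem_setOf_eq, mem_ball_zero_iff, norm_smul_sp]
    constructor
    · rintro ⟨h1, h2⟩
      exact ⟨h1, h2, by rw [abs_of_pos h1.1]; exact h1.2⟩
    · rintro ⟨h1, h2, -⟩
      exact ⟨h1, h2⟩
  obtain ⟨i1, v1⟩ := wA_vol hMP hN2 (bb N) _ m1 inter_subset_right
  refine ⟨by rw [hrho]; exact v1, ?_, ?_⟩
  · have m2 : MeasurableSet (symmDiff (Ω ∩ ball 0 (bb N)) (ball (0 : E N) 1)) :=
      m1.symmDiff measurableSet_ball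
    have hsub : symmDiff (Ω ∩ ball 0 (bb N)) (ball (0 : E N) 1) ⊆ ball 0 (bb N) := by
      intro x hx
      rcases hx with hx | hx
      · exact hx.1.2
      · exact ball_subset_ball hbb hx.1
    have hsub2 : symmDiff (Ω ∩ ball 0 (bb N)) (ball (0 : E N) 1) ⊆ symmDiff Ω (ball 0 1) := by
      intro x hx
      rcases hx with hx | hx
      · exact Or.inl ⟨hx.1.1, hx.2⟩
      · exact Or.inr ⟨hx.1, fun h => hx.2 ⟨h, ball_subset_ball hbb hx.1⟩⟩
    obtain ⟨i2, v2⟩ := wA_vol hMP hN2 (bb N) _ m2 hsub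
    have hpt : ∀ θ, |rho Ω θ - 1| ≤
        wA (bb N) (symmDiff (Ω ∩ ball 0 (bb N)) (ball (0 : E N) 1)) θ := by
      intro θ
      have k1 := set_le N (bb N) _ _ _ (meas_ray (measurableSet_ball (x := (0 : E N)) (ε := 1)) θ)
        (meas_ray m2 θ) (meas_ray m1 θ) (by
          intro r hr
          by_cases h : r • (θ : E N) ∈ ball (0 : E N) 1
          · exact Or.inl h
          · exact Or.inr (Or.inl ⟨hr, h⟩))
      have k2 := set_le N (bb N) _ _ _ (meas_ray m1 θ) (meas_ray m2 θ)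
        (meas_ray (measurableSet_ball (x := (0 : E N)) (ε := 1)) θ) (by
          intro r hr
          by_cases h : r • (θ : E N) ∈ Ω ∩ ball 0 (bb N)
          · exact Or.inl h
          · exact Or.inr (Or.inr ⟨hr, h⟩))
      have k3 := w_ball hN2 θ
      unfold wA at k3
      rw [hrho]
      unfold wA
      rw [k3] at k1 k2
      rw [abs_le]
      constructor <;> linarith
    calc vB N * av (fun θ => |rho Ω θ - 1|)
        ≤ vB N * av (wA (bb N) (symmDiff (Ω ∩ ball 0 (bb N)) (ball (0 : E N) 1))) := by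
          refine mul_le_mul_of_nonneg_left ?_ hvB
          have hpm := (hMP N hN2).1
          refine integral_mono ?_ i2 hpt
          rw [hrho]
          exact (i1.sub (integrable_const 1)).abs
      _ = volume.real (symmDiff (Ω ∩ ball 0 (bb N)) (ball (0 : E N) 1)) := v2
      _ ≤ volume.real (symmDiff Ω (ball 0 1)) := by
          refine measureReal_mono hsub2 ?_
          refine ((measure_mono (symmDiff_subset_union)).trans_lt ?_).ne
          exact (measure_union_le _ _).trans_lt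
            (ENNReal.add_lt_top.2 ⟨hfin.lt_top, measure_ball_lt_top⟩)
  · have m3 : MeasurableSet (ball (0 : E N) a \ Ω) := measurableSet_ball.diff hΩm
    have hH : Hh Ω a = wA a (ball (0 : E N) a \ Ω) := by
      funext θ
      unfold Hh wA
      congr 2
      ext r
      simp only [mem_inter_iff, mem_diff, mem_Ioo, mem_setOf_eq, mem_ball_zero_iff, norm_smul_sp]
      constructor
      · rintro ⟨h1, h2⟩
        exact ⟨h1, by rw [abs_of_pos h1.1]; exact h1.2, h2⟩
      · rintro ⟨h1, -, h2⟩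
        exact ⟨h1, h2⟩
    obtain ⟨-, v3⟩ := wA_vol hMP hN2 a _ m3 diff_subset
    rw [hH, v3]
    refine measureReal_mono (diff_subset_diff_left (ball_subset_ball ha1)) ?_
    exact ((measure_mono diff_subset).trans_lt measure_ball_lt_top).ne

end Pool.Agent.H26.LNN
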